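import Pool.Agent.Lib.MP_dcf1eb_pr.R7

/-!
# Fixed area self-avoiding polygons: law of large numbers and order of the variance for almost
# every tilt

`p m n` = number of self-avoiding polygons on the square lattice (as sets of cells, up to
translation) with half-perimeter `m` and area `n`, exactly as in the frozen statement S19677.
Tilted ensemble: the probability of half-perimeter `m` at area `n` is `exp (t m) p m n / Zt p n t`;
`t = 0` is the uniform fixed area ensemble.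
-/

set_option autoImplicit false

namespace Pool.Agent.Results.MP_dcf1eb_pr.AlmostEveryTilt

open Filter Pool.Agent.Lib.MP_dcf1eb_pr

/-- The normalisation of the ensemble of area `n` with tilt `t`. -/
noncomputable def Zt (p : ℕ → ℕ → ℕ) (n : ℕ) (t : ℝ) : ℝ :=
  ∑ m ∈ Finset.range (4 * n + 4), Real.exp (t * m) * (p m n : ℝ)

/-- The mean of the half-perimeter in this ensemble. -/
noncomputable def Mt (p : ℕ → ℕ → ℕ) (n : ℕ) (t : ℝ) : ℝ :=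
  (∑ m ∈ Finset.range (4 * n + 4), (m : ℝ) * (Real.exp (t * m) * (p m n : ℝ))) / Zt p n t

/-- The variance of the half-perimeter in this ensemble. -/
noncomputable def Vt (p : ℕ → ℕ → ℕ) (n : ℕ) (t : ℝ) : ℝ :=
  (∑ m ∈ Finset.range (4 * n + 4), ((m : ℝ) - Mt p n t) ^ 2 *
    (Real.exp (t * m) * (p m n : ℝ))) / Zt p n t

theorem result (p : ℕ → ℕ → ℕ)
    (hp : ∀ m n : ℕ, p m n = Nat.card {S : Finset (ℤ × ℤ) //
      (SimpleGraph.induce (↑S : Set (ℤ × ℤ))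
        (SimpleGraph.fromRel (fun a b : ℤ × ℤ => |a.1 - b.1| + |a.2 - b.2| = 1))).Connected ∧
      (SimpleGraph.induce ((↑S : Set (ℤ × ℤ))ᶜ)
        (SimpleGraph.fromRel (fun a b : ℤ × ℤ => |a.1 - b.1| + |a.2 - b.2| = 1))).Connected ∧
      (∀ x y : ℤ,
        ¬ ((x, y) ∈ S ∧ (x + 1, y + 1) ∈ S ∧ (x + 1, y) ∉ S ∧ (x, y + 1) ∉ S) ∧
        ¬ ((x + 1, y) ∈ S ∧ (x, y + 1) ∈ S ∧ (x, y) ∉ S ∧ (x + 1, y + 1) ∉ S)) ∧
      S.card = n ∧
      (∑ a ∈ S, (Finset.filter (fun b => b ∉ S)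
        ({(a.1 + 1, a.2), (a.1 - 1, a.2), (a.1, a.2 + 1), (a.1, a.2 - 1)} :
          Finset (ℤ × ℤ))).card) = 2 * m ∧
      (∀ a ∈ S, 0 ≤ a.1 ∧ 0 ≤ a.2) ∧ (∃ a ∈ S, a.1 = 0) ∧ (∃ a ∈ S, a.2 = 0)}) :
    ∃ (t₀ : ℝ) (μ : ℝ → ℝ) (E : Set ℝ), t₀ < 0 ∧ E.Countable ∧
      StrictMonoOn μ (Set.Ioi t₀) ∧ (∀ t : ℝ, t₀ < t → 0 < μ t ∧ μ t < 1) ∧
      (∀ t : ℝ, t₀ < t → t ∉ E → ∀ ε : ℝ, 0 < ε → ∃ c : ℝ, 0 < c ∧ ∀ᶠ n : ℕ in atTop,
        ∑ m ∈ Finset.range (4 * n + 4), (if ε * n ≤ |(m : ℝ) - μ t * n| then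
          Real.exp (t * m) * (p m n : ℝ) else 0) ≤ Real.exp (-(c * n)) * Zt p n t) ∧
      (∀ t : ℝ, t₀ < t → ∃ c : ℝ, 0 < c ∧ ∀ᶠ n : ℕ in atTop, c ≤ Vt p n t / n) ∧
      (∀ᵐ t : ℝ, ∃ C : ℝ, ∃ᶠ N : ℕ in atTop, ∑ n ∈ Finset.Icc 1 N, Vt p n t / n ≤ C * N) := by
  have hpp : p = pp := by
    funext m n
    rw [hp m n]
    rfl
  subst hpp
  have hZ : ∀ (n : ℕ) (t : ℝ), Zt pp n t = ZZ n t := fun n t => R7_Z n t
  have hM : ∀ (n : ℕ) (t : ℝ), Mt pp n t = mmean n t := fun n t => by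
    unfold Mt
    rw [hZ, R7_mean]
  have hV : ∀ (n : ℕ) (t : ℝ), Vt pp n t = vvar n t := fun n t => by
    unfold Vt
    rw [hZ, hM, R7_var]
  obtain ⟨t₀, ht₀, hF⟩ := R4_left FE_zero_pos
  have hpos : ∀ t : ℝ, t₀ < t → 0 < FE t := fun t ht => lt_of_lt_of_le hF (R2_mono ht.le)
  refine ⟨t₀, gd, {t : ℝ | ¬ DifferentiableAt ℝ FE t}, ht₀, R4_countable, ?_, ?_, ?_, ?_, ?_⟩
  · intro s hs t _ hst
    exact R7_strictMono (hpos s hs) hst
  · intro t ht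
    exact R7_mem (hpos t ht)
  · intro t _ htE ε hε
    have hd : DifferentiableAt ℝ FE t := not_not.1 htE
    obtain ⟨c, hc, h⟩ := R3_lln (R7_deriv hd) hε
    refine ⟨c, hc, ?_⟩
    filter_upwards [h] with n hn
    rw [R7_tail, hZ]
    exact hn
  · intro t ht
    obtain ⟨c, hc, h⟩ := R7_varbound (hpos t ht)
    refine ⟨c, hc, ?_⟩
    filter_upwards [h] with n hn
    rw [hV]
    exact hn
  · filter_upwards [R6_ae] with t ht
    simp only [hV]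
    exact ht

end Pool.Agent.Results.MP_dcf1eb_pr.AlmostEveryTilt
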