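import Pool.Agent.Lib.MP_dcf1eb_pr.R7

/-!
# Fixed area self-avoiding polygons: strict convexity of the free energy

`p m n` = number of self-avoiding polygons on the square lattice (as sets of cells, up to
translation) with half-perimeter `m` and area `n`, exactly as in the frozen statement S19677.
`F t` is the growth rate of `∑ m, exp (t m) p m n`; the uniform fixed area ensemble is `t = 0`.
-/

set_option autoImplicit false

namespace Pool.Agent.Results.MP_dcf1eb_pr.FreeEnergy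

open Filter Pool.Agent.Lib.MP_dcf1eb_pr

theorem result (p : ℕ → ℕ → ℕ)
    (hp : ∀ m n : ℕ, p m n = Nat.card {S : Finset (ℤ × ℤ) //
      (SimpleGraph.induce (↑S : Set (ℤ × ℤ))
        (SimpleGraph.fromRel (fun a b : ℤ × ℤ => |a.1 - b.1| + |a.2 - b.2| = 1))).Connected ∧
      (SimpleGraph.induce ((↑S : Set (ℤ × ℤ))ᶜ)
        (SimpleGraph.fromRel (fun a b : ℤ × ℤ => |a.1 - b.1| + |a.2 - b.2| = 1))).Connected ∧
      (∀ x y : ℤ,
        ¬ ((x, y) ∈ S ∧ (x + 1, y + 1) ∈ S ∧ (x + 1, y) ∉ S ∧ (x, y + 1) ∉ S) ∧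
        ¬ ((x + 1, y) ∈ S ∧ (x, y + 1) ∈ S ∧ (x, y) ∉ S ∧ (x + 1, y + 1) ∉ S)) ∧
      S.card = n ∧
      (∑ a ∈ S, (Finset.filter (fun b => b ∉ S)
        ({(a.1 + 1, a.2), (a.1 - 1, a.2), (a.1, a.2 + 1), (a.1, a.2 - 1)} :
          Finset (ℤ × ℤ))).card) = 2 * m ∧
      (∀ a ∈ S, 0 ≤ a.1 ∧ 0 ≤ a.2) ∧ (∃ a ∈ S, a.1 = 0) ∧ (∃ a ∈ S, a.2 = 0)}) :
    ∃ F : ℝ → ℝ,
      (∀ t : ℝ, Tendsto (fun n : ℕ => Real.log (∑ m ∈ Finset.range (4 * n + 4),
        Real.exp (t * m) * (p m n : ℝ)) / n) atTop (nhds (F t))) ∧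
      ConvexOn ℝ Set.univ F ∧ 0 < F 0 ∧ StrictConvexOn ℝ {t | 0 < F t} F ∧
      (∀ t : ℝ, 0 < F t → ∃ c : ℝ, 0 < c ∧ ∀ h : ℝ, |h| ≤ 1 →
        c * h ^ 2 ≤ F (t + h) + F (t - h) - 2 * F t) ∧
      (∀ s t : ℝ, 0 < F s → s < t → 0 < F t - F s ∧ F t - F s < t - s) ∧
      (∀ μ : ℝ, HasDerivAt F μ 0 ↔ ∀ ε : ℝ, 0 < ε → ∃ c : ℝ, 0 < c ∧ ∀ᶠ n : ℕ in atTop,
        ∑ m ∈ Finset.range (4 * n + 4), (if ε * n ≤ |(m : ℝ) - μ * n| then (p m n : ℝ) else 0) ≤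
          Real.exp (-(c * n)) * ∑ m ∈ Finset.range (4 * n + 4), (p m n : ℝ)) := by
  have hpp : p = pp := by
    funext m n
    rw [hp m n]
    rfl
  subst hpp
  refine ⟨FE, ?_, R2_convex, FE_zero_pos, R2_strictConvex, fun t ht => R4_quad ht, ?_, ?_⟩
  · intro t
    simpa only [R7_Z] using tendsto_FE t
  · intro s t hs hst
    have h1 := R2_strictMono hs hst
    have h2 := R2_strictAnti hs hst
    exact ⟨by linarith, by linarith⟩
  · intro μ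
    have h0 : ∀ n : ℕ, ∑ m ∈ Finset.range (4 * n + 4), (pp m n : ℝ) = ZZ n 0 := by
      intro n
      rw [← R7_Z]
      refine Finset.sum_congr rfl fun m _ => ?_
      rw [zero_mul, Real.exp_zero, one_mul]
    have h1 : ∀ (n : ℕ) (ε : ℝ), ∑ m ∈ Finset.range (4 * n + 4),
        (if ε * n ≤ |(m : ℝ) - μ * n| then (pp m n : ℝ) else 0) = TT n 0 μ ε := by
      intro n ε
      rw [← R7_tail]
      refine Finset.sum_congr rfl fun m _ => ?_
      rw [zero_mul, Real.exp_zero, one_mul]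
    simp only [h0, h1]
    exact ⟨fun h ε hε => R3_lln h hε, fun h => R3_deriv h⟩

end Pool.Agent.Results.MP_dcf1eb_pr.FreeEnergy
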