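import Pool.Agent.Lib.MP_dcf1eb_pr.Z2

/-!
# Fixed area self-avoiding polygons: the half-perimeter is of order n, strictly below n

`p m n` = number of self-avoiding polygons on the square lattice (as sets of cells, up to
translation) with half-perimeter `m` and area `n`, exactly as in the frozen statement.
-/

set_option autoImplicit false

namespace Pool.Agent.Results.MP_dcf1eb_pr.LinearPerimeter

open Filter Pool.Agent.Lib.MP_dcf1eb_pr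

theorem result (p : ℕ → ℕ → ℕ) (N mu : ℕ → ℝ)
    (hp : ∀ m n : ℕ, p m n = Nat.card {S : Finset (ℤ × ℤ) //
      (SimpleGraph.induce (↑S : Set (ℤ × ℤ))
        (SimpleGraph.fromRel (fun a b : ℤ × ℤ => |a.1 - b.1| + |a.2 - b.2| = 1))).Connected ∧
      (SimpleGraph.induce ((↑S : Set (ℤ × ℤ))ᶜ)
        (SimpleGraph.fromRel (fun a b : ℤ × ℤ => |a.1 - b.1| + |a.2 - b.2| = 1))).Connected ∧
      (∀ x y : ℤ,
        ¬ ((x, y) ∈ S ∧ (x + 1, y + 1) ∈ S ∧ (x + 1, y) ∉ S ∧ (x, y + 1) ∉ S) ∧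
        ¬ ((x + 1, y) ∈ S ∧ (x, y + 1) ∈ S ∧ (x, y) ∉ S ∧ (x + 1, y + 1) ∉ S)) ∧
      S.card = n ∧
      (∑ a ∈ S, (Finset.filter (fun b => b ∉ S)
        ({(a.1 + 1, a.2), (a.1 - 1, a.2), (a.1, a.2 + 1), (a.1, a.2 - 1)} :
          Finset (ℤ × ℤ))).card) = 2 * m ∧
      (∀ a ∈ S, 0 ≤ a.1 ∧ 0 ≤ a.2) ∧ (∃ a ∈ S, a.1 = 0) ∧ (∃ a ∈ S, a.2 = 0)})
    (hN : ∀ n : ℕ, N n = ∑ m ∈ Finset.range (4 * n + 4), (p m n : ℝ))
    (hmu : ∀ n : ℕ, mu n = (∑ m ∈ Finset.range (4 * n + 4), (m : ℝ) * (p m n : ℝ)) / N n) :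
    ∃ a b c : ℝ, 0 < a ∧ b < 1 ∧ 0 < c ∧ ∀ᶠ n : ℕ in atTop,
      0 < N n ∧
      (1 - Real.exp (-(c * n))) * N n ≤ ∑ m ∈ Finset.range (4 * n + 4),
        (if a * n ≤ (m : ℝ) ∧ (m : ℝ) ≤ b * n then (p m n : ℝ) else 0) ∧
      a * n ≤ mu n ∧ mu n ≤ b * n := by
  have hpp : p = pp := by
    funext m n
    rw [hp m n]
    rfl
  subst hpp
  obtain ⟨a, b, c, ha, hb, hc, h⟩ := lin
  refine ⟨a, b, c, ha, hb, hc, ?_⟩
  filter_upwards [h] with n hn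
  have hNn : N n = ((polys n).card : ℝ) := by rw [hN, sum_pp_one]
  obtain ⟨h0, h1, h2, h3⟩ := hn
  refine ⟨by rw [hNn]; exact h0, by rw [hNn]; exact h1, ?_, ?_⟩
  · rw [hmu, hNn, le_div_iff₀ h0]
    exact h2
  · rw [hmu, hNn, div_le_iff₀ h0]
    exact h3

end Pool.Agent.Results.MP_dcf1eb_pr.LinearPerimeter
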