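import Pool.Agent.Lib.MP_dcf1eb_pr.Z3

/-!
# Fixed area self-avoiding polygons: smoothness of the perimeter law, variance at least of order n

`p m n` = number of self-avoiding polygons on the square lattice (as sets of cells, up to
translation) with half-perimeter `m` and area `n`, exactly as in the frozen statement.
-/

set_option autoImplicit false

namespace Pool.Agent.Results.MP_dcf1eb_pr.SmoothPerimeterLaw

open Filter Pool.Agent.Lib.MP_dcf1eb_pr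

theorem result (p : ℕ → ℕ → ℕ) (N mu sig : ℕ → ℝ)
    (hp : ∀ m n : ℕ, p m n = Nat.card {S : Finset (ℤ × ℤ) //
      (SimpleGraph.induce (↑S : Set (ℤ × ℤ))
        (SimpleGraph.fromRel (fun a b : ℤ × ℤ => |a.1 - b.1| + |a.2 - b.2| = 1))).Connected ∧
      (SimpleGraph.induce ((↑S : Set (ℤ × ℤ))ᶜ)
        (SimpleGraph.fromRel (fun a b : ℤ × ℤ => |a.1 - b.1| + |a.2 - b.2| = 1))).Connected ∧
      (∀ x y : ℤ,
        ¬ ((x, y) ∈ S ∧ (x + 1, y + 1) ∈ S ∧ (x + 1, y) ∉ S ∧ (x, y + 1) ∉ S) ∧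
        ¬ ((x + 1, y) ∈ S ∧ (x, y + 1) ∈ S ∧ (x, y) ∉ S ∧ (x + 1, y + 1) ∉ S)) ∧
      S.card = n ∧
      (∑ a ∈ S, (Finset.filter (fun b => b ∉ S)
        ({(a.1 + 1, a.2), (a.1 - 1, a.2), (a.1, a.2 + 1), (a.1, a.2 - 1)} :
          Finset (ℤ × ℤ))).card) = 2 * m ∧
      (∀ a ∈ S, 0 ≤ a.1 ∧ 0 ≤ a.2) ∧ (∃ a ∈ S, a.1 = 0) ∧ (∃ a ∈ S, a.2 = 0)})
    (hN : ∀ n : ℕ, N n = ∑ m ∈ Finset.range (4 * n + 4), (p m n : ℝ))
    (hmu : ∀ n : ℕ, mu n = (∑ m ∈ Finset.range (4 * n + 4), (m : ℝ) * (p m n : ℝ)) / N n)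
    (hsig : ∀ n : ℕ, sig n = Real.sqrt
      ((∑ m ∈ Finset.range (4 * n + 4), ((m : ℝ) - mu n) ^ 2 * (p m n : ℝ)) / N n)) :
    ∃ C s : ℝ, 0 < C ∧ 0 < s ∧
      (∀ n : ℕ, 1 ≤ n → 0 < N n ∧
        (∀ M : ℕ, ∑ m ∈ Finset.range M, |(p (m + 1) n : ℝ) - (p m n : ℝ)| ≤
          C / Real.sqrt n * N n) ∧
        (∀ m : ℕ, (p m n : ℝ) ≤ C / Real.sqrt n * N n)) ∧
      ∀ᶠ n : ℕ in atTop, s * Real.sqrt n ≤ sig n := by
  have hpp : p = pp := by
    funext m n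
    rw [hp m n]
    rfl
  subst hpp
  obtain ⟨C, hC, h⟩ := smooth
  have hNn : ∀ n, N n = ((polys n).card : ℝ) := fun n => by rw [hN, sum_pp_one]
  have hac := anticonc h
  have hNpos : ∀ n : ℕ, 1 ≤ n → 0 < N n := by
    intro n hn
    rw [hNn]
    have := polys_pos hn
    exact_mod_cast this
  have hsq : ∀ n : ℕ, 1 ≤ n → 0 < Real.sqrt n := by
    intro n hn
    exact Real.sqrt_pos.2 (by exact_mod_cast hn)
  refine ⟨C, Real.sqrt (1 / (128 * C ^ 2)), hC, Real.sqrt_pos.2 (by positivity), ?_, ?_⟩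
  · intro n hn
    refine ⟨hNpos n hn, fun M => ?_, fun m => ?_⟩
    · rw [hNn, div_mul_eq_mul_div, le_div_iff₀ (hsq n hn)]
      exact h n hn M
    · rw [hNn, div_mul_eq_mul_div, le_div_iff₀ (hsq n hn)]
      exact hac n hn m
  · filter_upwards [spread hC hac, eventually_ge_atTop 1] with n hn hn1
    rw [hsig, ← Real.sqrt_mul (by positivity)]
    apply Real.sqrt_le_sqrt
    rw [le_div_iff₀ (hNpos n hn1), hNn]
    calc 1 / (128 * C ^ 2) * (n : ℝ) * ((polys n).card : ℝ)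
        = (n : ℝ) / (128 * C ^ 2) * ((polys n).card : ℝ) := by ring
      _ ≤ _ := hn (mu n)

end Pool.Agent.Results.MP_dcf1eb_pr.SmoothPerimeterLaw
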